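import Mathlib
import Pool.Agent.Helper93K9.Wendel.Main

/-!
# The critical sparsity for the Wendel formula

Let `ξ` be a symmetric real random variable with law `ν`, not identically zero (in particular every
symmetric subgaussian variable with variance one).  The critical sparsity for the Wendel formula is
`log d / (P(ξ ≠ 0) d)`.  No further assumption is needed.

Proof idea.  By symmetry the probability is the mean of the number of cells of the central
arrangement of the hyperplanes orthogonal to the vectors, divided by `2 ^ n`.  So it is at most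
Wendel's number, and at least the expected number, divided by `2 ^ n`, of the sets `S` of vectors
for which all the sets `S ∪ {e}` are linearly independent.  For `#S < d - η √d` such a set is found
with high probability: (1) small sets of columns are not the support of a linear relation since
some row meets them exactly once; (2) the mean of `2 ^ nullity` of the first `d - η √d` rows is at
most the sum of the numbers `((1 + a ^ #B) / 2) ^ (d - η √d)` over sets `B` of columns, `a` the
probability that an entry vanishes, which is `exp (o(√d))`; (3) each of the last `η √d` rows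
decreases the nullity with probability bounded below.
-/

set_option autoImplicit false

open MeasureTheory Filter Topology

namespace Pool.Agent.Results.MP_f7f952_pr.CriticalSparsity

/-- The law of `b ξ`, where `b` is a Bernoulli(`p`) variable independent of `ξ` and `ξ` has law `ν`:
it is `0` with probability `1 - p` and has law `ν` with probability `p`. -/
noncomputable def entryLaw (ν : Measure ℝ) (p : ℝ) : Measure ℝ :=
  ENNReal.ofReal (1 - p) • Measure.dirac 0 + ENNReal.ofReal p • ν

/-- `P_p(n,d)`: the probability that the origin is not in the convex hull of `n` random vectors in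
`ℝ^d` whose `n d` coordinates are independent with law `entryLaw ν p`. -/
noncomputable def P (ν : Measure ℝ) (p : ℝ) (n d : ℕ) : ℝ :=
  (Measure.pi fun _ : Fin n => Measure.pi fun _ : Fin d => entryLaw ν p).real
    {X : Fin n → Fin d → ℝ | (0 : Fin d → ℝ) ∉ convexHull ℝ (Set.range X)}

/-- Wendel's number `2 ^ (-n+1) ∑_{k<d} binom(n-1,k)`. -/
noncomputable def W (n d : ℕ) : ℝ := (∑ k ∈ Finset.range d, ((n - 1).choose k : ℝ)) / 2 ^ (n - 1)

/-- The Wendel formula holds along `p`: `sup_{n ≥ 1} |P_{p(d)}(n,d) - W(n,d)| → 0`. -/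
def FormulaHolds (ν : Measure ℝ) (p : ℕ → ℝ) : Prop :=
  Tendsto (fun d : ℕ => ⨆ n : {n : ℕ // 1 ≤ n}, |P ν (p d) n d - W n d|) atTop (𝓝 0)

/-- `pc` is a critical sparsity. -/
def IsCriticalSparsity (ν : Measure ℝ) (pc : ℕ → ℝ) : Prop :=
  ∀ ε : ℝ, 0 < ε →
    (∀ p : ℕ → ℝ, (∀ d, 0 < p d ∧ p d ≤ 1) → (∀ᶠ d in atTop, (1 + ε) * pc d ≤ p d) →
      FormulaHolds ν p) ∧
    (∀ p : ℕ → ℝ, (∀ d, 0 < p d ∧ p d ≤ 1) → (∀ᶠ d in atTop, p d ≤ (1 - ε) * pc d) →
      ¬ FormulaHolds ν p)

section aux

variable {ν : Measure ℝ} [IsProbabilityMeasure ν]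

theorem prob_entry {p : ℝ} (h0 : 0 ≤ p) (h1 : p ≤ 1) : IsProbabilityMeasure (entryLaw ν p) := by
  constructor
  unfold entryLaw
  simp only [Measure.add_apply, Measure.smul_apply, smul_eq_mul, measure_univ, mul_one]
  rw [← ENNReal.ofReal_add (by linarith) h0]
  simp

theorem mp_entry (hν : ν.map (fun x => -x) = ν) (p : ℝ) :
    MeasurePreserving (Neg.neg : ℝ → ℝ) (entryLaw ν p) (entryLaw ν p) := by
  refine ⟨measurable_neg, ?_⟩
  unfold entryLaw
  have h1 : (Measure.dirac (0 : ℝ)).map (Neg.neg : ℝ → ℝ) = Measure.dirac 0 := by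
    rw [Measure.map_dirac' measurable_neg]
    simp
  have h2 : ν.map (Neg.neg : ℝ → ℝ) = ν := hν
  rw [Measure.map_add _ _ measurable_neg, Measure.map_smul, Measure.map_smul, h1, h2]

theorem entry_zero {p : ℝ} (h0 : 0 ≤ p) (h1 : p ≤ 1) :
    (entryLaw ν p) {0} = ENNReal.ofReal (1 - p * ν.real {0}ᶜ) := by
  have h2 : ν {0} = ENNReal.ofReal (1 - ν.real {0}ᶜ) := by
    have h3 : ν.real {0}ᶜ = 1 - ν.real {0} := by
      rw [measureReal_compl (measurableSet_singleton 0)]
      simp
    rw [h3, sub_sub_cancel, ofReal_measureReal]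
  have h4 : ν.real {0}ᶜ ≤ 1 := measureReal_le_one
  unfold entryLaw
  simp only [Measure.add_apply, Measure.smul_apply, smul_eq_mul]
  rw [h2, Measure.dirac_apply_of_mem (Set.mem_singleton 0), mul_one, ← ENNReal.ofReal_mul h0,
    ← ENNReal.ofReal_add (by linarith) (mul_nonneg h0 (by linarith))]
  congr 1
  ring

theorem P_eq (p : ℝ) (n d : ℕ) : P ν p n d = Helper93K9.Wendel.Pr (entryLaw ν p) n d := rfl

theorem W_eq (n d : ℕ) : W n d = Helper93K9.Wendel.W n d := rfl

theorem W_le_one (n d : ℕ) : W n d ≤ 1 := Helper93K9.Wendel.binom_part_le (n - 1) d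

theorem W_nonneg (n d : ℕ) : 0 ≤ W n d := by unfold W; positivity

theorem diff_le_one {p : ℝ} (h0 : 0 ≤ p) (h1 : p ≤ 1) (n d : ℕ) : |P ν p n d - W n d| ≤ 1 := by
  haveI := prob_entry (ν := ν) h0 h1
  have h2 : 0 ≤ P ν p n d := measureReal_nonneg
  have h3 : P ν p n d ≤ 1 := measureReal_le_one
  have h4 := W_le_one n d
  have h5 := W_nonneg n d
  rw [abs_le]
  constructor <;> linarith

end aux

/-- **The critical sparsity for the Wendel formula.** Let `ν` be a symmetric probability law on `ℝ`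
other than the point mass at `0`, and put `pc d = log d / (ν({0}ᶜ) d)`.

(1) For all `ε, η > 0`, all large `d` and all `p ∈ (0,1]`: if `p ≥ (1+ε) pc d` then
`|P_p(n,d) - W(n,d)| ≤ η` for all `n ≥ 1`; if `p ≤ (1-ε) pc d` then `P_p(2d,d) ≤ η`, while
`W(2d,d) = 1/2`.

(2) In particular `pc` is a critical sparsity. -/
theorem result (ν : Measure ℝ) [IsProbabilityMeasure ν] (hsymm : ν.map (fun x => -x) = ν)
    (hne : ν {0} ≠ 1) :
    (∀ ε η : ℝ, 0 < ε → 0 < η → ∃ d0 : ℕ, ∀ d : ℕ, d0 ≤ d → ∀ p : ℝ, 0 < p → p ≤ 1 →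
      ((1 + ε) * (Real.log d / (ν.real {0}ᶜ * d)) ≤ p →
        ∀ n : ℕ, 1 ≤ n → |P ν p n d - W n d| ≤ η) ∧
      (p ≤ (1 - ε) * (Real.log d / (ν.real {0}ᶜ * d)) →
        P ν p (2 * d) d ≤ η ∧ W (2 * d) d = 1 / 2)) ∧
    IsCriticalSparsity ν (fun d => Real.log d / (ν.real {0}ᶜ * d)) := by
  set α := ν.real {0}ᶜ with hα
  have hα0 : 0 < α := by
    have h1 : 0 ≤ α := measureReal_nonneg
    rcases h1.eq_or_lt with h2 | h2
    · exfalso
      apply hne
      have h3 : ν {0}ᶜ = 0 := by
        have := h2.symm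
        rw [hα, measureReal_eq_zero_iff] at this
        exact this
      have h4 := prob_compl_eq_one_sub (μ := ν) (measurableSet_singleton (0 : ℝ))
      rw [h3] at h4
      have h5 : (1 : ENNReal) ≤ ν {0} := tsub_eq_zero_iff_le.1 h4.symm
      exact le_antisymm prob_le_one h5
    · exact h2
  have hα1 : α ≤ 1 := measureReal_le_one
  have main : ∀ ε η : ℝ, 0 < ε → 0 < η → ∃ d0 : ℕ, ∀ d : ℕ, d0 ≤ d → ∀ p : ℝ, 0 < p → p ≤ 1 →
      ((1 + ε) * (Real.log d / (α * d)) ≤ p → ∀ n : ℕ, 1 ≤ n → |P ν p n d - W n d| ≤ η) ∧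
      (p ≤ (1 - ε) * (Real.log d / (α * d)) → P ν p (2 * d) d ≤ η ∧ W (2 * d) d = 1 / 2) := by
    intro ε η hε hη
    obtain ⟨d1, hd1⟩ := Helper93K9.Wendel.upper_side (min ε 1) η (lt_min hε one_pos)
      (min_le_right _ _) hη
    obtain ⟨d2, hd2⟩ := Helper93K9.Wendel.lower_side ε η hε hη
    refine ⟨max (max d1 d2) 1, fun d hd p hp0 hp1 => ?_⟩
    have hd1' : d1 ≤ d := (le_max_left _ _).trans ((le_max_left _ _).trans hd)
    have hd2' : d2 ≤ d := (le_max_right _ _).trans ((le_max_left _ _).trans hd)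
    have hd3 : 1 ≤ d := (le_max_right _ _).trans hd
    have hdR : (1 : ℝ) ≤ d := by exact_mod_cast hd3
    have hdpos : (0 : ℝ) < d := by linarith
    have hlog : 0 ≤ Real.log d := Real.log_nonneg hdR
    haveI := prob_entry (ν := ν) hp0.le hp1
    have ha0 : 0 ≤ 1 - p * α := by nlinarith
    have hz := entry_zero (ν := ν) hp0.le hp1
    have hmul : ∀ t : ℝ, t * (Real.log d / (α * d)) * α = t * Real.log d / d := by
      intro t
      field_simp
    constructor
    · intro hle n hn
      refine hd1 d hd1' (entryLaw ν p) (mp_entry hsymm p) (1 - p * α) ha0 hz ?_ n hn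
      have h1 : (1 + min ε 1) * (Real.log d / (α * d)) ≤ p := by
        refine le_trans ?_ hle
        refine mul_le_mul_of_nonneg_right ?_ (by positivity)
        linarith [min_le_left ε 1]
      have h2 := mul_le_mul_of_nonneg_right h1 hα0.le
      rw [hmul] at h2
      linarith
    · intro hle
      refine ⟨?_, Helper93K9.Wendel.W_half d hd3⟩
      refine hd2 d hd2' (entryLaw ν p) (1 - p * α) ha0 (by nlinarith) hz ?_
      have h2 := mul_le_mul_of_nonneg_right hle hα0.le
      rw [hmul] at h2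
      linarith
  refine ⟨main, fun ε hε => ⟨fun p hp hev => ?_, fun p hp hev hF => ?_⟩⟩
  · unfold FormulaHolds
    rw [Metric.tendsto_atTop]
    intro η hη
    obtain ⟨d0, hd0⟩ := main ε (η / 2) hε (by positivity)
    obtain ⟨d1, hd1⟩ := Filter.eventually_atTop.1 hev
    refine ⟨max d0 d1, fun d hd => ?_⟩
    have h1 := (hd0 d ((le_max_left _ _).trans hd) (p d) (hp d).1 (hp d).2).1
      (hd1 d ((le_max_right _ _).trans hd))
    have h2 : 0 ≤ ⨆ n : {n : ℕ // 1 ≤ n}, |P ν (p d) n d - W n d| :=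
      Real.iSup_nonneg fun n => abs_nonneg _
    have h3 : (⨆ n : {n : ℕ // 1 ≤ n}, |P ν (p d) n d - W n d|) ≤ η / 2 :=
      Real.iSup_le (fun n => h1 n n.2) (by positivity)
    rw [Real.dist_eq, sub_zero, abs_of_nonneg h2]
    linarith
  · unfold FormulaHolds at hF
    rw [Metric.tendsto_atTop] at hF
    obtain ⟨d0, hd0⟩ := hF (1 / 4) (by norm_num)
    obtain ⟨d1, hd1⟩ := main ε (1 / 4) hε (by norm_num)
    obtain ⟨d2, hd2⟩ := Filter.eventually_atTop.1 hev
    set d := max (max d0 d1) (max d2 1) with hd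
    have hda : d0 ≤ d := (le_max_left _ _).trans (le_max_left _ _)
    have hdb : d1 ≤ d := (le_max_right _ _).trans (le_max_left _ _)
    have hdc : d2 ≤ d := (le_max_left _ _).trans (le_max_right _ _)
    have hdd : 1 ≤ d := (le_max_right _ _).trans (le_max_right _ _)
    obtain ⟨h1, h2⟩ := (hd1 d hdb (p d) (hp d).1 (hp d).2).2 (hd2 d hdc)
    have h3 := hd0 d hda
    have hbdd : BddAbove (Set.range fun n : {n : ℕ // 1 ≤ n} => |P ν (p d) n d - W n d|) := by
      refine ⟨1, ?_⟩
      rintro _ ⟨n, rfl⟩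
      exact diff_le_one (hp d).1.le (hp d).2 n d
    have h4 := le_ciSup hbdd (⟨2 * d, by omega⟩ : {n : ℕ // 1 ≤ n})
    beta_reduce at h4
    have h5 : (1 : ℝ) / 4 ≤ |P ν (p d) (2 * d) d - W (2 * d) d| := by
      rw [h2, abs_sub_comm]
      refine le_trans ?_ (le_abs_self _)
      linarith
    rw [Real.dist_eq, sub_zero] at h3
    have h6 := (le_abs_self (⨆ n : {n : ℕ // 1 ≤ n}, |P ν (p d) n d - W n d|)).trans_lt h3
    exact absurd (h5.trans h4) (not_le.2 h6)

end Pool.Agent.Results.MP_f7f952_pr.CriticalSparsity
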